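import Pool.Agent.MWE.Stmts

/-!
# Squad MWE, row PMV: rearrangements outside block `1`
-/

set_option autoImplicit false

namespace Pool.Agent.MWE.H6

open Pool.Agent.Helper14_MV Pool.Agent.Helper2_MV Pool.Agent.MVD

theorem rtr {β : FIC} {l l' l'' : List ℕ} (h : RR β l l') (h' : RR β l' l'') : RR β l l'' :=
  β.trans h h'

theorem bw_perm (R : List ℕ) (B B' : ℕ → List ℕ) (h : ∀ r ∈ R, (B' r).Perm (B r)) :
    (Bw R B').Perm (Bw R B) := by
  unfold Bw
  induction R with
  | nil => exact List.Perm.refl _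
  | cons r R ih =>
    rw [List.flatMap_cons, List.flatMap_cons]
    exact ((h r List.mem_cons_self).append_right _).append
      (ih fun q hq => h q (List.mem_cons_of_mem _ hq))

theorem bw_eq (R : List ℕ) (B B' : ℕ → List ℕ) (h : ∀ r ∈ R, B' r = B r) :
    Bw R B' = Bw R B := by
  unfold Bw
  induction R with
  | nil => rfl
  | cons r R ih =>
    rw [List.flatMap_cons, List.flatMap_cons, h r List.mem_cons_self,
      ih fun q hq => h q (List.mem_cons_of_mem _ hq)]

theorem bf_perm {m : ℕ} {R c : List ℕ} {B B' : ℕ → List ℕ} {e e' : List ℕ} (h : Bf m R c B e)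
    (hB : ∀ r, (B' r).Perm (B r)) (he : e'.Perm e) : Bf m R c B' e' := by
  have hw : (Bw R B' ++ e').Perm (Bw R B ++ e) := (bw_perm R B B' fun r _ => hB r).append he
  refine
    { sf := fun r a ha => h.sf r a ((hB r).mem_iff.1 ha)
      se := fun a ha => h.se a (he.mem_iff.1 ha)
      x0 := by rw [(hB 0).count_eq]; exact h.x0
      x1 := by rw [(hB 1).count_eq]; exact h.x1
      xo := fun r hr h0 h1 hm => h.xo r hr h0 h1 ((hB r).mem_iff.1 hm)
      xe := fun hm => h.xe (he.mem_iff.1 hm)
      y0 := by rw [(hB 0).count_eq]; exact h.y0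
      y1 := by rw [(hB 1).count_eq]; exact h.y1
      yo := fun r hr h0 h1 hm => h.yo r hr h0 h1 ((hB r).mem_iff.1 hm)
      ye := fun hm => h.ye (he.mem_iff.1 hm)
      li := fun d hd r hr => by rw [(hB r).count_eq]; exact h.li d hd r hr
      le := fun d hd hm => h.le d hd (he.mem_iff.1 hm)
      ct := fun a ha h3 => h.ct a (hw.mem_iff.1 ha) h3
      mu := fun a ha h3 => by
        rw [hw.count_eq]
        exact h.mu a (hw.mem_iff.1 ha) h3
      fu := fun a ha => (hB 1).mem_iff.2 (h.fu a ha) }

theorem up_self (B : ℕ → List ℕ) (r : ℕ) : up B r (B r) = B := by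
  funext q
  unfold up
  by_cases h : q = r
  · rw [if_pos h, h]
  · rw [if_neg h]

theorem up_at (B : ℕ → List ℕ) (r : ℕ) (D : List ℕ) : up B r D r = D := by
  unfold up
  rw [if_pos rfl]

theorem up_up (B : ℕ → List ℕ) (r : ℕ) (D D' : List ℕ) : up (up B r D) r D' = up B r D' := by
  funext q
  unfold up
  by_cases h : q = r
  · rw [if_pos h, if_pos h]
  · rw [if_neg h, if_neg h, if_neg h]

theorem up_perm (B : ℕ → List ℕ) (r : ℕ) (D : List ℕ) (h : D.Perm (B r)) (q : ℕ) :
    (up B r D q).Perm (B q) := by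
  unfold up
  by_cases hq : q = r
  · rw [if_pos hq, hq]; exact h
  · rw [if_neg hq]

theorem fxy_nil (D : List ℕ) (h0 : 0 ∉ D) (h3 : 3 ∉ D) :
    D.filter (fun a => decide (a = 0 ∨ a = 3)) = [] := by
  rw [List.filter_eq_nil_iff]
  intro a ha hc
  rcases of_decide_eq_true hc with h | h
  · rw [h] at ha; exact h0 ha
  · rw [h] at ha; exact h3 ha

theorem one (hplm : PlmStmt) (hswo : SwoStmt) (β : FIC) (m : ℕ) (R c : List ℕ) (B : ℕ → List ℕ)
    (e : List ℕ) (hc : Can m c) (hi : IH β c) (hR : R.Perm (List.range (m + 2)))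
    (hb : Bf m R c B e) (r : ℕ) (hr : r ∈ R) (h1 : r ≠ 1) (D' : List ℕ) (hD : D'.Perm (B r))
    (h0 : r = 0 → fxy D' = fxy (B 0)) :
    RR β (Bw R B ++ e) (Bw R (up B r D') ++ e) := by
  refine hplm (fun a => decide (a = 0 ∨ a = 3))
    (fun D => RR β (Bw R B ++ e) (Bw R (up B r D) ++ e)) (B r) D' hD.symm ?_ ?_ ?_
  · by_cases hr0 : r = 0
    · rw [hr0]; exact (h0 hr0).symm
    · have hx := hb.xo r hr hr0 h1
      have hy := hb.yo r hr hr0 h1
      rw [fxy_nil (B r) hx hy, fxy_nil D' (fun h => hx (hD.mem_iff.1 h))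
        (fun h => hy (hD.mem_iff.1 h))]
  · intro A C a b hp _ hab hP hE
    have hb1 : Bf m R c (up B r (A ++ a :: b :: C)) e :=
      bf_perm hb (up_perm B r _ hp) (List.Perm.refl _)
    have hs := (hswo β m R c (up B r (A ++ a :: b :: C)) e hc hi hR hb1).1 r A C a b hr h1
      (up_at _ _ _) hab (by
        rintro ⟨ha, hb'⟩
        exact hP ⟨decide_eq_true ha, decide_eq_true hb'⟩)
    rw [up_up] at hs
    exact rtr hE hs
  · show RR β (Bw R B ++ e) (Bw R (up B r (B r)) ++ e)
    rw [up_self]
    exact RR.refl _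

/-- the blocks in `S` are changed -/
def mix (B B' : ℕ → List ℕ) (S : List ℕ) : ℕ → List ℕ := fun r => if r ∈ S then B' r else B r

theorem mix_perm (B B' : ℕ → List ℕ) (S : List ℕ) (h : ∀ r ∈ S, (B' r).Perm (B r)) (r : ℕ) :
    (mix B B' S r).Perm (B r) := by
  unfold mix
  by_cases hr : r ∈ S
  · rw [if_pos hr]; exact h r hr
  · rw [if_neg hr]

theorem pmv (hplm : PlmStmt) (hswo : SwoStmt) : PmvStmt := by
  intro β m R c B e hc hi hR hb B' e' hB h1 h0 he
  have key : ∀ S : List ℕ, (∀ r ∈ S, r ∈ R) → RR β (Bw R B ++ e) (Bw R (mix B B' S) ++ e) := by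
    intro S
    induction S with
    | nil =>
      intro _
      have hm : mix B B' [] = B := by
        funext r
        unfold mix
        rw [if_neg List.not_mem_nil]
      rw [hm]
      exact RR.refl _
    | cons r S ih =>
      intro hS
      have hS' : ∀ q ∈ S, q ∈ R := fun q hq => hS q (List.mem_cons_of_mem _ hq)
      have ih' := ih hS'
      have hrR := hS r List.mem_cons_self
      have hpm : ∀ q, (mix B B' S q).Perm (B q) := mix_perm B B' S fun q hq => hB q (hS' q hq)
      have hbm : Bf m R c (mix B B' S) e := bf_perm hb hpm (List.Perm.refl _)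
      have hup : mix B B' (r :: S) = up (mix B B' S) r (B' r) := by
        funext q
        unfold up mix
        by_cases hq : q = r
        · rw [if_pos (by rw [hq]; exact List.mem_cons_self), if_pos hq, hq]
        · rw [if_neg hq]
          by_cases hqS : q ∈ S
          · rw [if_pos (List.mem_cons_of_mem _ hqS), if_pos hqS]
          · rw [if_neg (by
              intro h
              rcases List.mem_cons.1 h with h | h
              · exact hq h
              · exact hqS h), if_neg hqS]
      by_cases hr1 : r = 1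
      · have h1m : mix B B' S 1 = B' 1 := by
          unfold mix
          by_cases h : 1 ∈ S
          · rw [if_pos h]
          · rw [if_neg h, h1]
        rw [hup, hr1, ← h1m, up_self]
        exact ih'
      · rw [hup]
        refine rtr ih' (one hplm hswo β m R c (mix B B' S) e hc hi hR hbm r hrR hr1 (B' r)
          ((hB r hrR).trans (hpm r).symm) ?_)
        intro hr0
        rw [hr0]
        unfold mix
        by_cases h : 0 ∈ S
        · rw [if_pos h]
        · rw [if_neg h, h0]
  have hfull := key R fun r hr => hr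
  have hpm : ∀ q, (mix B B' R q).Perm (B q) := mix_perm B B' R hB
  have heq : Bw R (mix B B' R) = Bw R B' := bw_eq R B' (mix B B' R) fun r hr => by
    unfold mix
    rw [if_pos hr]
  rw [← heq]
  refine hplm (fun _ => false)
    (fun D => RR β (Bw R B ++ e) (Bw R (mix B B' R) ++ D)) e e' he.symm ?_ ?_ hfull
  · rw [List.filter_eq_nil_iff.2 (fun _ _ => Bool.false_ne_true),
      List.filter_eq_nil_iff.2 (fun _ _ => Bool.false_ne_true)]
  · intro A C a b hp _ hab _ hE
    have hb1 : Bf m R c (mix B B' R) (A ++ a :: b :: C) := bf_perm hb hpm hp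
    exact rtr hE ((hswo β m R c (mix B B' R) _ hc hi hR hb1).2 A C a b rfl hab)

end Pool.Agent.MWE.H6
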